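import Pool.Agent.BLP.StmtsM

/-!
# Squad BLP, row M_LEV: Lévy's maximal inequality for one level
-/

namespace Pool.Agent.BLP.H60

open MeasureTheory ProbabilityTheory Filter Topology Finset
open scoped ENNReal NNReal

/-- the finite form of Lévy's inequality -/
theorem levy_fin {X : Type} [MeasurableSpace X] (μ : Measure X) [IsProbabilityMeasure μ] (N : ℕ)
    (S : ℕ → X → ℝ) (hS : ∀ k, Measurable (S k))
    (hI : ∀ k ≤ N, IndepFun (fun x => fun j : Fin (k + 1) => S j x) (fun x => S N x - S k x) μ)
    (hP : ∀ k ≤ N, 1 ≤ 2 * μ {x | 0 ≤ S N x - S k x}) (y : ℝ) :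
    μ {x | ∃ k ≤ N, y < S k x} ≤ 2 * μ {x | y < S N x} := by
  classical
  obtain ⟨E, hEdef⟩ : ∃ E : ℕ → Set X, E = fun k => {x | y < S k x ∧ ∀ j < k, S j x ≤ y} := ⟨_, rfl⟩
  have hmem : ∀ k x, x ∈ E k ↔ y < S k x ∧ ∀ j < k, S j x ≤ y := by
    intro k x
    rw [hEdef]
    rfl
  have hk : ∀ k ≤ N, MeasurableSet (E k) ∧ μ (E k) ≤ 2 * μ (E k ∩ {x | y < S N x}) := by
    intro k hk
    have hA : MeasurableSet {w : Fin (k + 1) → ℝ | y < w (Fin.last k) ∧
        ∀ j : Fin (k + 1), j < Fin.last k → w j ≤ y} := by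
      have h1 : {w : Fin (k + 1) → ℝ | y < w (Fin.last k) ∧
          ∀ j : Fin (k + 1), j < Fin.last k → w j ≤ y} = {w | y < w (Fin.last k)} ∩
          ⋂ j : Fin (k + 1), ⋂ _ : j < Fin.last k, {w | w j ≤ y} := by
        ext w
        simp
      rw [h1]
      exact (measurableSet_lt measurable_const (measurable_pi_apply _)).inter
        (MeasurableSet.iInter fun j => MeasurableSet.iInter fun _ =>
          measurableSet_le (measurable_pi_apply _) measurable_const)
    have hEA : E k = (fun x => fun j : Fin (k + 1) => S j x) ⁻¹' {w : Fin (k + 1) → ℝ |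
        y < w (Fin.last k) ∧ ∀ j : Fin (k + 1), j < Fin.last k → w j ≤ y} := by
      ext x
      rw [hmem]
      constructor
      · rintro ⟨h1, h2⟩
        exact ⟨h1, fun j hj => h2 j hj⟩
      · rintro ⟨h1, h2⟩
        exact ⟨h1, fun j hj => h2 ⟨j, by omega⟩ hj⟩
    have hmeas : Measurable (fun x => fun j : Fin (k + 1) => S j x) :=
      measurable_pi_lambda _ fun j => hS j
    refine ⟨by rw [hEA]; exact hmeas hA, ?_⟩
    have h1 : μ (E k ∩ {x | 0 ≤ S N x - S k x}) = μ (E k) * μ {x | 0 ≤ S N x - S k x} := by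
      have h2 := (hI k hk).measure_inter_preimage_eq_mul _ (Set.Ici 0) hA measurableSet_Ici
      rw [← hEA] at h2
      exact h2
    calc μ (E k) = μ (E k) * 1 := (mul_one _).symm
      _ ≤ μ (E k) * (2 * μ {x | 0 ≤ S N x - S k x}) := by
          gcongr
          exact hP k hk
      _ = 2 * μ (E k ∩ {x | 0 ≤ S N x - S k x}) := by rw [h1]; ring
      _ ≤ 2 * μ (E k ∩ {x | y < S N x}) := by
          gcongr 2 * μ ?_
          rintro x ⟨hx, hx'⟩
          refine ⟨hx, ?_⟩
          have h3 := ((hmem k x).1 hx).1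
          have h4 : 0 ≤ S N x - S k x := hx'
          show y < S N x
          linarith
  have hdis : ∀ i j : ℕ, i < j → Disjoint (E i) (E j) := by
    intro i j hij
    rw [Set.disjoint_left]
    intro x hx hx'
    have h1 := ((hmem i x).1 hx).1
    have h2 := ((hmem j x).1 hx').2 i hij
    linarith
  have hdis' : ∀ i j : ℕ, i ≠ j → Disjoint (E i) (E j) := by
    intro i j hij
    rcases lt_or_gt_of_ne hij with h | h
    · exact hdis i j h
    · exact (hdis j i h).symm
  have hU : {x | ∃ k ≤ N, y < S k x} ⊆ ⋃ k ∈ range (N + 1), E k := by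
    rintro x ⟨k, hk, hx⟩
    have hex : ∃ k, y < S k x := ⟨k, hx⟩
    have h1 := Nat.find_spec hex
    have h2 : Nat.find hex ≤ k := Nat.find_min' hex hx
    rw [Set.mem_iUnion₂]
    refine ⟨Nat.find hex, Finset.mem_range.2 (by omega), (hmem _ _).2 ⟨h1, fun j hj => ?_⟩⟩
    exact not_lt.1 (Nat.find_min hex hj)
  have hmN : MeasurableSet {x | y < S N x} := measurableSet_lt measurable_const (hS N)
  calc μ {x | ∃ k ≤ N, y < S k x} ≤ μ (⋃ k ∈ range (N + 1), E k) := measure_mono hU
    _ = ∑ k ∈ range (N + 1), μ (E k) :=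
        measure_biUnion_finset (fun i _ j _ hij => hdis' i j hij)
          (fun k hk' => (hk k (by have := Finset.mem_range.1 hk'; omega)).1)
    _ ≤ ∑ k ∈ range (N + 1), 2 * μ (E k ∩ {x | y < S N x}) :=
        Finset.sum_le_sum fun k hk' => (hk k (by have := Finset.mem_range.1 hk'; omega)).2
    _ = 2 * ∑ k ∈ range (N + 1), μ (E k ∩ {x | y < S N x}) := by rw [Finset.mul_sum]
    _ = 2 * μ (⋃ k ∈ range (N + 1), (E k ∩ {x | y < S N x})) := by
        rw [measure_biUnion_finset
          (fun i _ j _ hij => (hdis' i j hij).mono Set.inter_subset_left Set.inter_subset_left)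
          (fun k hk' => (hk k (by have := Finset.mem_range.1 hk'; omega)).1.inter hmN)]
    _ ≤ 2 * μ {x | y < S N x} := by
        gcongr 2 * μ ?_
        intro x hx
        rw [Set.mem_iUnion₂] at hx
        obtain ⟨k, -, hx⟩ := hx
        exact hx.2

theorem gauss_symm (v : ℝ≥0) (a : ℝ) :
    gaussianReal 0 v (Set.Iic (-a)) = gaussianReal 0 v (Set.Ici a) := by
  have h1 : (gaussianReal 0 v).map (fun x => -x) = gaussianReal 0 v := by
    rw [gaussianReal_map_neg, neg_zero]
  have h2 : (gaussianReal 0 v).map (fun x => -x) (Set.Ici a) = gaussianReal 0 v (Set.Iic (-a)) := by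
    rw [Measure.map_apply measurable_neg measurableSet_Ici]
    congr 1
    ext x
    simp only [Set.mem_preimage, Set.mem_Ici, Set.mem_Iic]
    constructor <;> intro h <;> linarith
  rw [← h2, h1]

theorem gauss_half (v : ℝ≥0) : 1 ≤ 2 * gaussianReal 0 v (Set.Ici 0) := by
  have h1 : gaussianReal 0 v (Set.univ) ≤
      gaussianReal 0 v (Set.Ici 0) + gaussianReal 0 v (Set.Iic 0) := by
    refine (measure_mono ?_).trans (measure_union_le _ _)
    intro x _
    rcases le_total 0 x with h | h
    · exact Or.inl h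
    · exact Or.inr h
  have h2 := gauss_symm v 0
  rw [neg_zero] at h2
  rw [measure_univ, h2, ← two_mul] at h1
  exact h1

theorem gauss_tail (v : ℝ≥0) (y : ℝ) (hy : 0 ≤ y) :
    gaussianReal 0 v (Set.Ici y) ≤ ENNReal.ofReal (Real.exp (-(y ^ 2) / (2 * v))) := by
  have h1 : HasSubgaussianMGF id v (gaussianReal 0 v) := by
    constructor
    · intro t
      exact integrable_exp_mul_gaussianReal t
    · intro t
      rw [mgf_id_gaussianReal]
      simp
  have h2 := h1.measure_ge_le hy
  have h3 : gaussianReal 0 v (Set.Ici y) = ENNReal.ofReal ((gaussianReal 0 v).real {x | y ≤ id x}) := by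
    rw [ofReal_measureReal]
    rfl
  rw [h3]
  exact ENNReal.ofReal_le_ofReal h2

theorem m_lev : LvyStmt := by
  intro X _ μ B h r s t y hst hy
  have := h.prob
  obtain ⟨T, hT⟩ : ∃ T : ℝ≥0∞, T = ENNReal.ofReal (Real.exp (-(y ^ 2) / (2 * (t - s)))) := ⟨_, rfl⟩
  have hv : (((t - s).toNNReal : ℝ≥0) : ℝ) = t - s := Real.coe_toNNReal _ (by linarith)
  have hmB : ∀ u v : ℝ, Measurable fun x => B x r u - B x r v :=
    fun u v => (h.mea r u).sub (h.mea r v)
  -- tails
  have htail1 : μ {x | y < B x r t - B x r s} ≤ T := by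
    have h1 : μ {x | y < B x r t - B x r s} ≤ μ.map (fun x => B x r t - B x r s) (Set.Ici y) := by
      rw [Measure.map_apply (hmB t s) measurableSet_Ici]
      refine measure_mono fun x hx => ?_
      have hx' : y < B x r t - B x r s := hx
      exact hx'.le
    refine h1.trans ?_
    rw [h.law r s t hst.le, hT]
    have h2 := gauss_tail (t - s).toNNReal y hy
    rwa [hv] at h2
  have htail2 : μ {x | y < -(B x r t - B x r s)} ≤ T := by
    have h1 : μ {x | y < -(B x r t - B x r s)} ≤
        μ.map (fun x => B x r t - B x r s) (Set.Iic (-y)) := by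
      rw [Measure.map_apply (hmB t s) measurableSet_Iic]
      refine measure_mono fun x hx => ?_
      have hx' : y < -(B x r t - B x r s) := hx
      show B x r t - B x r s ≤ -y
      linarith
    refine h1.trans ?_
    rw [h.law r s t hst.le, hT, gauss_symm]
    have h2 := gauss_tail (t - s).toNNReal y hy
    rwa [hv] at h2
  -- the finite inequality
  have hfin : ∀ N : ℕ, 1 ≤ N →
      μ {x | ∃ k : ℕ, k ≤ N ∧ y < |B x r (s + k * (t - s) / N) - B x r s|} ≤ 4 * T := by
    intro N hN
    have hN0 : (0 : ℝ) < N := by exact_mod_cast hN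
    obtain ⟨u, hu⟩ : ∃ u : ℕ → ℝ, u = fun k : ℕ => s + (k : ℝ) * (t - s) / N := ⟨_, rfl⟩
    have huN : u N = t := by
      rw [hu]
      field_simp
      ring
    have hmono : ∀ i j : ℕ, i ≤ j → u i ≤ u j := by
      intro i j hij
      rw [hu]
      have h1 : (i : ℝ) ≤ j := by exact_mod_cast hij
      have h2 : (i : ℝ) * (t - s) / N ≤ j * (t - s) / N :=
        div_le_div_of_nonneg_right (mul_le_mul_of_nonneg_right h1 (by linarith)) hN0.le
      show s + i * (t - s) / N ≤ s + j * (t - s) / N
      linarith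
    have hu0 : u 0 = s := by
      rw [hu]
      simp
    have hs : ∀ k : ℕ, s ≤ u k := fun k => hu0 ▸ hmono 0 k (Nat.zero_le _)
    have hInd : ∀ k ≤ N, IndepFun (fun x => fun j : Fin (k + 1) => B x r (u j) - B x r s)
        (fun x => B x r t - B x r (u k)) μ := by
      intro k hk
      have h1 := h.inc r (u k)
      have hφ : Measurable (fun w : {v : ℝ // v ≤ u k} → ℝ => fun j : Fin (k + 1) =>
          w ⟨u j, hmono j k (by omega)⟩ - w ⟨s, hs k⟩) :=
        measurable_pi_lambda _ fun j => (measurable_pi_apply _).sub (measurable_pi_apply _)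
      have hψ : Measurable (fun w : {v : ℝ // u k ≤ v} → ℝ =>
          w ⟨t, huN ▸ hmono k N hk⟩) := measurable_pi_apply _
      have h2 := h1.comp hφ hψ
      have h3 : (fun x => fun j : Fin (k + 1) => B x r (u j) - B x r s) =
          (fun w : {v : ℝ // v ≤ u k} → ℝ => fun j : Fin (k + 1) =>
            w ⟨u j, hmono j k (by omega)⟩ - w ⟨s, hs k⟩) ∘
            (fun x => fun v : {v : ℝ // v ≤ u k} => B x r v - B x r (u k)) := by
        funext x j
        simp only [Function.comp]
        ring
      rw [h3]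
      exact h2
    have hhalf : ∀ k ≤ N, 1 ≤ 2 * μ {x | 0 ≤ B x r t - B x r (u k)} ∧
        1 ≤ 2 * μ {x | B x r t - B x r (u k) ≤ 0} := by
      intro k hk
      have h1 := h.law r (u k) t (huN ▸ hmono k N hk)
      have h2 : μ {x | 0 ≤ B x r t - B x r (u k)} =
          μ.map (fun x => B x r t - B x r (u k)) (Set.Ici 0) := by
        rw [Measure.map_apply (hmB t (u k)) measurableSet_Ici]
        rfl
      have h3 : μ {x | B x r t - B x r (u k) ≤ 0} =
          μ.map (fun x => B x r t - B x r (u k)) (Set.Iic (-0)) := by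
        rw [Measure.map_apply (hmB t (u k)) measurableSet_Iic, neg_zero]
        rfl
      rw [h2, h3, h1, gauss_symm]
      exact ⟨gauss_half _, gauss_half _⟩
    have hp := levy_fin μ N (fun k x => B x r (u k) - B x r s) (fun k => hmB _ _)
      (fun k hk => by
        have h1 := hInd k hk
        have h2 : (fun x => (B x r (u N) - B x r s) - (B x r (u k) - B x r s)) =
            fun x => B x r t - B x r (u k) := by
          funext x
          rw [huN]
          ring
        rw [h2]
        exact h1)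
      (fun k hk => by
        have h1 := (hhalf k hk).1
        have h2 : {x | 0 ≤ (B x r (u N) - B x r s) - (B x r (u k) - B x r s)} =
            {x | 0 ≤ B x r t - B x r (u k)} := by
          ext x
          simp only [Set.mem_ofPred_eq]
          rw [huN]
          constructor <;> intro h3 <;> linarith
        rw [h2]
        exact h1) y
    have hm := levy_fin μ N (fun k x => -(B x r (u k) - B x r s)) (fun k => (hmB _ _).neg)
      (fun k hk => by
        have h1 := (hInd k hk).comp (φ := fun w : Fin (k + 1) → ℝ => fun j => -(w j))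
          (ψ := fun z : ℝ => -z) (measurable_pi_lambda _ fun j => (measurable_pi_apply j).neg)
          measurable_neg
        have h2 : (fun x => -(B x r (u N) - B x r s) - -(B x r (u k) - B x r s)) =
            (fun z : ℝ => -z) ∘ fun x => B x r t - B x r (u k) := by
          funext x
          simp only [Function.comp]
          rw [huN]
          ring
        rw [h2]
        exact h1)
      (fun k hk => by
        have h1 := (hhalf k hk).2
        have h2 : {x | 0 ≤ -(B x r (u N) - B x r s) - -(B x r (u k) - B x r s)} =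
            {x | B x r t - B x r (u k) ≤ 0} := by
          ext x
          simp only [Set.mem_ofPred_eq]
          rw [huN]
          constructor <;> intro h3 <;> linarith
        rw [h2]
        exact h1) y
    have hsub : {x | ∃ k : ℕ, k ≤ N ∧ y < |B x r (s + k * (t - s) / N) - B x r s|} ⊆
        {x | ∃ k ≤ N, y < B x r (u k) - B x r s} ∪ {x | ∃ k ≤ N, y < -(B x r (u k) - B x r s)} := by
      rintro x ⟨k, hk, hx⟩
      rcases lt_abs.1 hx with h1 | h1
      · left
        refine ⟨k, hk, ?_⟩
        rw [hu]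
        exact h1
      · right
        refine ⟨k, hk, ?_⟩
        rw [hu]
        exact h1
    refine (measure_mono hsub).trans ((measure_union_le _ _).trans ?_)
    refine (add_le_add hp hm).trans ?_
    simp only [huN]
    calc 2 * μ {x | y < B x r t - B x r s} + 2 * μ {x | y < -(B x r t - B x r s)}
        ≤ 2 * T + 2 * T := add_le_add (mul_le_mul' le_rfl htail1) (mul_le_mul' le_rfl htail2)
      _ = 4 * T := by ring
  -- dyadic points
  have hsub : {x | ∃ u, s ≤ u ∧ u ≤ t ∧ y < |B x r u - B x r s|} ⊆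
      ⋃ j : ℕ, {x | ∃ k : ℕ, k ≤ 2 ^ j ∧ y < |B x r (s + k * (t - s) / ((2 ^ j : ℕ) : ℝ)) - B x r s|} := by
    rintro x ⟨u, hsu, hut, hx⟩
    have hc : Continuous fun v => |B x r v - B x r s| :=
      ((h.cts x r).sub continuous_const).abs
    have ho : IsOpen {v | y < |B x r v - B x r s|} := isOpen_lt continuous_const hc
    obtain ⟨δ, hδ, hball⟩ := Metric.isOpen_iff.1 ho u hx
    obtain ⟨j, hj⟩ : ∃ j : ℕ, (t - s) / δ < 2 ^ j := pow_unbounded_of_one_lt _ (by norm_num)
    have h2j : (0 : ℝ) < 2 ^ j := by positivity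
    rw [Set.mem_iUnion]
    have hts : 0 < t - s := by linarith
    obtain ⟨z, hz⟩ : ∃ z : ℝ, z = (u - s) * 2 ^ j / (t - s) := ⟨_, rfl⟩
    have hz0 : 0 ≤ z := by
      rw [hz]
      have : 0 ≤ u - s := by linarith
      positivity
    have hz1 : z ≤ 2 ^ j := by
      rw [hz, div_le_iff₀ hts]
      nlinarith
    have hzf := Nat.floor_le hz0
    have hzf' := Nat.lt_floor_add_one z
    refine ⟨j, ⌊z⌋₊, ?_, ?_⟩
    · have h1 : (⌊z⌋₊ : ℝ) ≤ ((2 ^ j : ℕ) : ℝ) := by
        push_cast
        linarith
      exact_mod_cast h1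
    · apply hball
      rw [Metric.mem_ball, Real.dist_eq]
      push_cast
      have h1 : s + (⌊z⌋₊ : ℝ) * (t - s) / 2 ^ j - u = ((⌊z⌋₊ : ℝ) - z) * ((t - s) / 2 ^ j) := by
        have h2 : z * ((t - s) / 2 ^ j) = u - s := by
          rw [hz]
          field_simp
        rw [sub_mul, h2]
        ring
      rw [h1, abs_mul]
      have h3 : |(⌊z⌋₊ : ℝ) - z| ≤ 1 := by
        rw [abs_le]
        constructor <;> linarith
      have h4 : |(t - s) / 2 ^ j| < δ := by
        rw [abs_of_pos (by positivity), div_lt_iff₀ h2j]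
        rw [div_lt_iff₀ hδ] at hj
        linarith
      calc |(⌊z⌋₊ : ℝ) - z| * |(t - s) / 2 ^ j| ≤ 1 * |(t - s) / 2 ^ j| :=
            mul_le_mul_of_nonneg_right h3 (abs_nonneg _)
        _ < δ := by rw [one_mul]; exact h4
  have hmon : Monotone fun j : ℕ =>
      {x | ∃ k : ℕ, k ≤ 2 ^ j ∧ y < |B x r (s + k * (t - s) / ((2 ^ j : ℕ) : ℝ)) - B x r s|} := by
    refine monotone_nat_of_le_succ fun j => ?_
    rintro x ⟨k, hk, hx⟩
    refine ⟨2 * k, by rw [pow_succ]; omega, ?_⟩
    have h1 : s + ((2 * k : ℕ) : ℝ) * (t - s) / ((2 ^ (j + 1) : ℕ) : ℝ) =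
        s + k * (t - s) / ((2 ^ j : ℕ) : ℝ) := by
      push_cast
      rw [pow_succ]
      field_simp
    rw [h1]
    exact hx
  refine (measure_mono hsub).trans ?_
  rw [hmon.measure_iUnion]
  refine iSup_le fun j => ?_
  refine (hfin (2 ^ j) (Nat.one_le_two_pow)).trans ?_
  rw [hT, ENNReal.ofReal_mul (by norm_num)]
  norm_num

end Pool.Agent.BLP.H60
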