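import Pool.Agent.BLP.StmtsM
import Pool.Agent.BLP.StmtsA

/-!
# Squad BLP, row M_SCF: scaling realised by a measure preserving map
-/

namespace Pool.Agent.BLP.H60

open MeasureTheory ProbabilityTheory Filter Topology Finset
open scoped ENNReal

theorem m_scf (cov : CovStmt) : ScfStmt := by
  intro X _ μ B h l hl
  obtain ⟨T, hT, hae⟩ := h.sc l hl
  refine ⟨T, hT, ?_⟩
  filter_upwards [hae] with x hx
  intro m s n t
  rw [hx]
  exact (cov (B x) m n s t).2.2 (l : ℝ) (by exact_mod_cast hl)

end Pool.Agent.BLP.H60
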